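import Pool.Graph.R_seed8.R940.HDefs
import Pool.Graph.R_pool_sql_team_seeded_b0a926ef.R914.UN.HDefs

/-!
# Absolutely Hodge classes and neutral classes: definitions

A Hodge theory `T` (`Pool.Agent.Y121.AHS.HodgeTheory`) is a Weil cohomology theory with rational
coefficients and a Hodge decomposition of its cohomology with complex coefficients; in the intended use
it is the cohomology `H(ρ X, ℚ)` of the smooth projective varieties over a field `k`, for an embedding
`ρ` of `k` into the complex numbers. `pw X n` is `X ^ (n + 1)`, and `H(X)` is the sum of the `H^i(X)`.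
-/

open CategoryTheory AlgebraicGeometry

universe u

namespace Pool.Agent.H842.PA

open Pool.Agent.H914 Pool.Agent.H914.VarClass Pool.Agent.H914.VarClass.Obj
  Pool.Agent.H914.WeilCohomology Pool.Agent.Y121.AHS Pool.Agent.R940
open Pool.Agent.Y163 (pw)

variable {k : Type u} [Field k] {𝒱 : VarClass k} {ops : CycleOps 𝒱}

/-- The number `N = 6 b ^ 3 (log₂ b + 3)`; the logarithm is rounded down. -/
def polyBound (b : ℕ) : ℕ := 6 * b ^ 3 * (Nat.log 2 b + 3)

/-- The number `2 b ^ 2 (log₂ b + 3)`; the logarithm is rounded down. -/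
def numBound (b : ℕ) : ℕ := 2 * b ^ 2 * (Nat.log 2 b + 3)

/-- The number `(4 b) ^ (2 b ^ 2)`. -/
def idxBound (b : ℕ) : ℕ := (4 * b) ^ (2 * b ^ 2)

/-- The cohomology classes on `X` with rational coefficients. -/
def Coh (T : HodgeTheory ops) (X : 𝒱.Obj) : Type := T.W.H X

/-- The value of the endomorphism `f` of `H(X)` at `x`. -/
noncomputable def app {T : HodgeTheory ops} {X : 𝒱.Obj} (f : EndH T X) (x : Coh T X) : Coh T X :=
  endApp (K := T.W.K) (A := T.W.H X) f x

/-- The sum of the spaces of the classes of the types `(p + m, q + m)`, `m` an integer. -/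
noncomputable def shifted (T : HodgeTheory ops) (X : 𝒱.Obj) (p q : ℤ) : Set (HL T.W ℂ X) :=
  (Submodule.span ℂ {y : HL T.W ℂ X | ∃ m : ℤ, IsType T.pq (p + m) (q + m) y} : Set (HL T.W ℂ X))

/-- Hodge endomorphisms of `H(X)`: the rational endomorphism `f` maps the classes of type `(p, q)`
to sums of classes of the types `(p + m, q + m)`, for all `p` and `q`. -/
def IsHodgeEnd {T : HodgeTheory ops} {X : 𝒱.Obj} (f : EndH T X) : Prop :=
  ∀ (p q : ℤ) (x : HL T.W ℂ X), IsType T.pq p q x → endC f x ∈ shifted T X p q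

/-- The endomorphism `f` of an algebra `H` is skew for the form `t (x * y)`. -/
def SkewFor {K H : Type} [Field K] [Ring H] [Algebra K H] (t : H →ₗ[K] K) (f : Module.End K H) :
    Prop :=
  ∀ x y : H, t (f x * y) = -t (x * f y)

/-- `f` is skew for the intersection form `tr(x * y)` of `H(X)`: `tr(f x * y) = - tr(x * f y)`. -/
def IsSkew {T : HodgeTheory ops} {X : 𝒱.Obj} (f : EndH T X) : Prop := SkewFor (T.W.tr X) f

/-- Central skew Hodge endomorphisms of `H(X)`: Hodge endomorphisms which commute with all Hodge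
endomorphisms and are skew for the intersection form. -/
def IsCentralSkew {T : HodgeTheory ops} {X : 𝒱.Obj} (f : EndH T X) : Prop :=
  IsHodgeEnd f ∧ (∀ g : EndH T X, IsHodgeEnd g → ∀ x, app f (app g x) = app g (app f x)) ∧ IsSkew f

/-- Sums of classes. -/
noncomputable def add {T : HodgeTheory ops} {X : 𝒱.Obj} (a b : Coh T X) : Coh T X :=
  (show T.W.H X from a) + (show T.W.H X from b)

/-- Products of classes. -/
noncomputable def mul {T : HodgeTheory ops} {X : 𝒱.Obj} (a b : Coh T X) : Coh T X :=
  (show T.W.H X from a) * (show T.W.H X from b)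

/-- The value of the linear map `f` at `a`. -/
def lapp {K A B : Type} [Field K] [Ring A] [Algebra K A] [Ring B] [Algebra K B] (f : A →ₗ[K] B)
    (a : A) : B := f a

/-- The value of the homomorphism `f` of algebras at `a`. -/
def aapp {K A B : Type} [Field K] [Ring A] [Algebra K A] [Ring B] [Algebra K B] (f : A →ₐ[K] B)
    (a : A) : B := f a

/-- Pull-backs of classes. -/
noncomputable def pull (T : HodgeTheory ops) {X Y : 𝒱.Obj} (f : X ⟶ Y) (a : Coh T Y) : Coh T X :=
  aapp (A := T.W.H Y) (B := T.W.H X) (T.W.map f) a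

/-- Push-forwards of classes. -/
noncomputable def push (T : HodgeTheory ops) {X Y : 𝒱.Obj} (f : X ⟶ Y) (a : Coh T X) : Coh T Y :=
  lapp (A := T.W.H X) (B := T.W.H Y) (T.W.push f) a

/-- Multiples of classes by rational numbers. -/
noncomputable def qmul {T : HodgeTheory ops} {X : 𝒱.Obj} (q : ℚ) (a : Coh T X) : Coh T X :=
  (q : T.W.K) • (show T.W.H X from a)

/-- The external product `x × y`, a class on `X × Y`. -/
noncomputable def cross {T : HodgeTheory ops} {X Y : 𝒱.Obj} (x : Coh T X) (y : Coh T Y) :
    Coh T (X.prod Y) :=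
  mul (pull T (fst X Y) x) (pull T (snd X Y) y)

/-- `IsDer f n D`: the endomorphism `D` of `H(X ^ (n + 1))` is the derivation given by the
endomorphism `f` of `H(X)`: it is `f` for `n = 0`, and on `X ^ (n + 2) = X × X ^ (n + 1)` it is
given by `D (x × y) = f x × y + x × D' y`, where `D'` is the derivation on `H(X ^ (n + 1))`. (So
`D (x 0 × ... × x n)` is the sum of the classes `x 0 × ... × f (x i) × ... × x n`.) -/
inductive IsDer {T : HodgeTheory ops} {X : 𝒱.Obj} (f : EndH T X) : ∀ n : ℕ, EndH T (pw X n) → Prop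
  | zero : IsDer f 0 f
  | succ (n : ℕ) (D' : EndH T (pw X n)) (D : EndH T (X.prod (pw X n))) : IsDer f n D' →
      (∀ x y, app D (cross x y) = add (cross (app f x) y) (cross x (app D' y))) → IsDer f (n + 1) D

/-- The class `c` on `X ^ (n + 1)` is neutral: it is killed by the derivations given by the central
skew Hodge endomorphisms of `H(X)`. If there are none besides `0`, then all classes are neutral. -/
def IsNeutral (T : HodgeTheory ops) (X : 𝒱.Obj) (n : ℕ) (c : Coh T (pw X n)) : Prop :=
  ∀ f : EndH T X, IsCentralSkew f → ∀ D : EndH T (pw X n), IsDer f n D → app D c = qmul 0 c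

/-- There are no central skew Hodge endomorphisms of `H(X)` besides `0`. Equivalently, the centre of
the algebra of the Hodge endomorphisms of `H(X)` is a product of totally real fields (no factor is a
CM field). -/
def NoTypeFour (T : HodgeTheory ops) (X : 𝒱.Obj) : Prop :=
  ∀ f : EndH T X, IsCentralSkew f → ∀ x, app f x = qmul 0 x

/-- The dimension of the space spanned by the set `S` of classes on `Y`. -/
noncomputable def spanDim (T : HodgeTheory ops) (Y : 𝒱.Obj) (S : Set (Coh T Y)) : ℕ :=
  Set.finrank T.W.K (M := T.W.H Y) S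

/-- The relation `a'` corresponds to `a` for rational classes `a` and `a'` of degree `2 j` in two
cohomology theories, given by a comparison. In the intended case `T'` is the cohomology of the
varieties `ρ' X` for another embedding `ρ'`, and `a'` corresponds to `a` if the comparison isomorphism
given by `ℓ`-adic cohomology (or by de Rham cohomology, or all comparison isomorphisms) maps the
first class to the second one, where the Tate twist is taken into account. -/
structure Corr (T T' : HodgeTheory ops) where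
  /-- the relation -/
  R : ∀ Y : 𝒱.Obj, ℕ → Coh T Y → Coh T' Y → Prop
  cl : ∀ (Y : 𝒱.Obj) (j : ℕ) (z : Y.Cycles), Y.IsCyc j z → R Y j (T.W.cl Y z) (T'.W.cl Y z)
  add : ∀ (Y : 𝒱.Obj) (j : ℕ) (a b : Coh T Y) (a' b' : Coh T' Y), R Y j a a' → R Y j b b' →
    R Y j (add a b) (add a' b')
  qmul : ∀ (Y : 𝒱.Obj) (j : ℕ) (q : ℚ) (a : Coh T Y) (a' : Coh T' Y), R Y j a a' →
    R Y j (qmul q a) (qmul q a')
  mul : ∀ (Y : 𝒱.Obj) (i j : ℕ) (a b : Coh T Y) (a' b' : Coh T' Y), R Y i a a' → R Y j b b' →
    R Y (i + j) (mul a b) (mul a' b')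
  pull : ∀ (Y Z : 𝒱.Obj) (f : Y ⟶ Z) (j : ℕ) (a : Coh T Z) (a' : Coh T' Z), R Z j a a' →
    R Y j (pull T f a) (pull T' f a')
  push : ∀ (Y Z : 𝒱.Obj) (f : Y ⟶ Z) (j l : ℕ) (a : Coh T Y) (a' : Coh T' Y),
    l + Y.dim = j + Z.dim → R Y j a a' → R Z l (push T f a) (push T' f a')

/-- Conjugates of a Hodge theory: a family of Hodge theories with comparisons. -/
structure Conj (T : HodgeTheory ops) where
  /-- the index set -/
  ι : Type u
  /-- the conjugate theories -/
  T' : ι → HodgeTheory ops
  /-- the comparisons -/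
  cmp : ∀ i, Corr T (T' i)

/-- The absolutely Hodge classes of degree `2 j`: the Hodge classes which correspond to Hodge
classes in all conjugate theories. -/
def IsAbs {T : HodgeTheory ops} (D : Conj T) (Y : 𝒱.Obj) (j : ℕ) (c : Coh T Y) : Prop :=
  IsHodge T Y j c ∧ ∀ i, ∃ c' : Coh (D.T' i) Y, IsHodge (D.T' i) Y j c' ∧ (D.cmp i).R Y j c c'

/-- All Hodge classes on `Y` are absolutely Hodge. -/
def AllAbs {T : HodgeTheory ops} (D : Conj T) (Y : 𝒱.Obj) : Prop :=
  ∀ (j : ℕ) (c : Coh T Y), IsHodge T Y j c → IsAbs D Y j c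

/-- The neutral Hodge classes on `X ^ (n + 1)` are absolutely Hodge. -/
def NeutralAbs {T : HodgeTheory ops} (D : Conj T) (X : 𝒱.Obj) (n : ℕ) : Prop :=
  ∀ (j : ℕ) (c : Coh T (pw X n)), IsHodge T (pw X n) j c → IsNeutral T X n c → IsAbs D (pw X n) j c

/-- The dimension of the space spanned by the neutral classes with the property `P j` for some
`j`. -/
noncomputable def neutralDim (T : HodgeTheory ops) (X : 𝒱.Obj) (n : ℕ)
    (P : ℕ → Coh T (pw X n) → Prop) : ℕ :=
  spanDim T (pw X n) {c | ∃ j, P j c ∧ IsNeutral T X n c}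

/-- There are at most `r` neutral Hodge classes on `X ^ (M + 1)`, depending only on the Hodge theory
`T`, such that for all families `D` of conjugates: the neutral Hodge classes on all powers of `X` are
absolutely Hodge if these classes and the neutral Hodge classes on `X ^ 4` are absolutely Hodge. -/
def FewSuffice (T : HodgeTheory ops) (X : 𝒱.Obj) (M r : ℕ) : Prop :=
  ∃ S : Set (Coh T (pw X M)), S.Finite ∧ S.ncard ≤ r ∧
    (∀ c ∈ S, IsNeutral T X M c ∧ ∃ j, IsHodge T (pw X M) j c) ∧
    ∀ D : Conj T, (∀ c ∈ S, ∀ j, IsHodge T (pw X M) j c → IsAbs D (pw X M) j c) →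
      NeutralAbs D X 3 → ∀ n : ℕ, NeutralAbs D X n

end Pool.Agent.H842.PA
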