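import Pool.Agent.H842.PP.Fin
import Pool.Agent.H842.PA.Defs

/-!
# Comparison of the definitions
-/

set_option linter.unusedSectionVars false
set_option linter.unusedVariables false

open CategoryTheory AlgebraicGeometry CategoryTheory.Limits TensorProduct

universe u v

namespace Pool.Agent.H842.PA

open Pool.Agent.H914 Pool.Agent.H447 Pool.Agent.W534 Pool.Agent.Y163 VarClass Obj WeilCohomology
  Module
open Pool.Agent.Y121 Pool.Agent.Y121.AHS Pool.Agent.R940 Pool.Agent.R914.UN
open Pool.Agent.Y133.Half (ClassPred)
open Pool.Agent.H842.PP (ext extML extML_apply mon_ext exists_der isDer_unique)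

variable {k : Type u} [Field k] {𝒱 : VarClass k} {ops : CycleOps 𝒱}

section gen

variable {W : WeilCohomology.{u, 0} ops} {X Y : 𝒱.Obj}

lemma ext_zero (x : Fin 1 → W.H X) : ext W X 0 x = x 0 := by
  rw [PP.ext, List.ofFn_succ, List.ofFn_zero, List.prod_cons, List.prod_nil, mul_one]
  exact W.map_id X (x 0)

lemma ext_succ (n : ℕ) (x : Fin (n + 2) → W.H X) :
    ext W X (n + 1) x = W.map (fst X (pw X n)) (x 0) *
      W.map (snd X (pw X n)) (ext W X n fun i => x i.succ) := by
  rw [PP.ext, List.ofFn_succ, List.prod_cons]
  congr 1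
  rw [PP.ext, map_list_prod, List.map_ofFn]
  congr 2
  funext i
  rw [Function.comp_apply, ← W.map_comp]
  rfl

/-- Two linear maps which agree on the external products are equal. -/
lemma ext_lin {M : Type*} [AddCommGroup M] [Module W.K M] {n : ℕ}
    {F G : W.H (pw X n) →ₗ[W.K] M} (h : ∀ x, F (ext W X n x) = G (ext W X n x)) : F = G := by
  obtain ⟨ι, hι, ⟨B⟩⟩ := exists_hbasis W X
  obtain ⟨b, hb⟩ := exists_monBasis B n
  refine b.ext fun I => ?_
  rw [hb, mon_ext, h]

/-- The rule for the derivations. -/
lemma der_cross {f : W.H X →ₗ[W.K] W.H X} {n : ℕ} {D' : W.H (pw X n) →ₗ[W.K] W.H (pw X n)}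
    {D : W.H (pw X (n + 1)) →ₗ[W.K] W.H (pw X (n + 1))} (h' : PP.IsDer f n D')
    (h : PP.IsDer f (n + 1) D) (x : W.H X) (y : W.H (pw X n)) :
    D (W.map (fst X (pw X n)) x * W.map (snd X (pw X n)) y) =
      W.map (fst X (pw X n)) (f x) * W.map (snd X (pw X n)) y +
        W.map (fst X (pw X n)) x * W.map (snd X (pw X n)) (D' y) := by
  let D₁ : W.H (X.prod (pw X n)) →ₗ[W.K] W.H (X.prod (pw X n)) := D
  have key : (D₁ ∘ₗ LinearMap.mulLeft W.K (W.map (fst X (pw X n)) x)) ∘ₗ
      (W.map (snd X (pw X n))).toLinearMap =
      (LinearMap.mulLeft W.K (W.map (fst X (pw X n)) (f x))) ∘ₗ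
        (W.map (snd X (pw X n))).toLinearMap +
      ((LinearMap.mulLeft W.K (W.map (fst X (pw X n)) x)) ∘ₗ
        (W.map (snd X (pw X n))).toLinearMap) ∘ₗ D' := by
    refine ext_lin fun z => ?_
    have e1 : ext W X (n + 1) (Fin.cons x z : Fin (n + 2) → W.H X) =
        W.map (fst X (pw X n)) x * W.map (snd X (pw X n)) (ext W X n z) := by
      rw [ext_succ]
      rfl
    have h1 := h (Fin.cons x z : Fin (n + 2) → W.H X)
    rw [e1, Fin.sum_univ_succ] at h1
    simp only [LinearMap.comp_apply, LinearMap.add_apply, LinearMap.mulLeft_apply,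
      AlgHom.toLinearMap_apply]
    refine h1.trans ?_
    congr 1
    · rw [ext_succ]
      congr 2
    · rw [h' z, map_sum, Finset.mul_sum]
      refine Finset.sum_congr rfl fun i _ => ?_
      rw [ext_succ]
      have e2 : (Function.update (Fin.cons x z : Fin (n + 2) → W.H X) i.succ
          (f ((Fin.cons x z : Fin (n + 2) → W.H X) i.succ))) 0 = x := by
        rw [Function.update_of_ne (Fin.succ_ne_zero i).symm]
        rfl
      have e3 : (fun j : Fin (n + 1) => (Function.update (Fin.cons x z : Fin (n + 2) → W.H X) i.succ
          (f ((Fin.cons x z : Fin (n + 2) → W.H X) i.succ))) j.succ) =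
          Function.update z i (f (z i)) := by
        funext j
        by_cases hj : j = i
        · subst hj
          rw [Function.update_self, Function.update_self]
          rfl
        · rw [Function.update_of_ne hj, Function.update_of_ne fun h => hj (Fin.succ_injective _ h)]
          rfl
      rw [e2, e3]
  exact LinearMap.congr_fun key y

end gen

variable {T : HodgeTheory ops} {X Y Z : 𝒱.Obj}

lemma centralSkew_iff {f : EndH T X} : IsCentralSkew f ↔ PP.IsCentralSkew f := Iff.rfl

lemma qmul_zero (x : Coh T X) : qmul 0 x = (0 : T.W.H X) := by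
  have h : ((0 : ℚ) : T.W.K) • (show T.W.H X from x) = 0 := by rw [Rat.cast_zero, zero_smul]
  exact h

/-- The two definitions of derivations. -/
lemma isDer_iff {f : EndH T X} {n : ℕ} {D : EndH T (pw X n)} :
    IsDer f n D ↔ PP.IsDer (W := T.W) f n D := by
  constructor
  · intro h
    induction h with
    | zero =>
      intro x
      rw [Fin.sum_univ_one, ext_zero, ext_zero, Function.update_self]
      rfl
    | succ n D' D h' hD ih =>
      intro x
      rw [Fin.sum_univ_succ, ext_succ]
      refine (hD (x 0) (ext T.W X n fun i => x i.succ)).trans ?_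
      let E : T.W.H (pw X n) →ₗ[T.W.K] T.W.H (pw X n) := D'
      let F : T.W.H X →ₗ[T.W.K] T.W.H X := f
      have h1 : E (ext T.W X n fun i => x i.succ) =
        ∑ i, ext T.W X n (Function.update (fun i => x i.succ) i (F (x i.succ))) :=
          ih fun i => x i.succ
      have h4 : add (cross (T := T) (app f (x 0)) (ext T.W X n fun i => x i.succ))
          (cross (T := T) (x 0) (app D' (ext T.W X n fun i => x i.succ))) =
          T.W.map (fst X (pw X n)) (F (x 0)) *
            T.W.map (snd X (pw X n)) (ext T.W X n fun i => x i.succ) +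
          T.W.map (fst X (pw X n)) (x 0) * T.W.map (snd X (pw X n))
            (E (ext T.W X n fun i => x i.succ)) := rfl
      refine h4.trans ?_
      rw [h1]
      congr 1
      · rw [ext_succ, Function.update_self]
        congr 2
      · rw [map_sum, Finset.mul_sum]
        refine Finset.sum_congr rfl fun i _ => ?_
        rw [ext_succ, Function.update_of_ne (Fin.succ_ne_zero i).symm]
        congr 3
        funext j
        by_cases hj : j = i
        · subst hj
          rw [Function.update_self, Function.update_self]
        · rw [Function.update_of_ne hj, Function.update_of_ne fun h => hj (Fin.succ_injective _ h)]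
  · intro h
    induction n with
    | zero =>
      have h1 : D = f := by
        have : (show T.W.H X →ₗ[T.W.K] T.W.H X from D) = (show T.W.H X →ₗ[T.W.K] T.W.H X from f) := by
          refine LinearMap.ext fun x => ?_
          have h2 := h fun _ => x
          rw [Fin.sum_univ_one, ext_zero, ext_zero, Function.update_self] at h2
          exact h2
        exact this
      rw [h1]
      exact IsDer.zero
    | succ n ih =>
      obtain ⟨D', hD'⟩ := exists_der (W := T.W) f n
      exact IsDer.succ n D' D (ih hD') fun x y => der_cross hD' h x y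

lemma neutral_iff {n : ℕ} {c : T.W.H (pw X n)} :
    IsNeutral T X n c ↔ PP.IsNeutral T X n c := by
  constructor
  · intro h f hf D hD
    exact (h f hf D (isDer_iff.2 (PP.derivation_iff.1 hD))).trans (qmul_zero c)
  · intro h f hf D hD
    exact Eq.trans (h f hf D (PP.derivation_iff.2 (isDer_iff.1 hD))) (qmul_zero c).symm

end Pool.Agent.H842.PA
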