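import Pool.Agent.H842.PA.Eq

/-!
# Absolutely Hodge classes: polynomial bounds
-/

set_option linter.unusedSectionVars false
set_option linter.unusedVariables false

open CategoryTheory AlgebraicGeometry CategoryTheory.Limits TensorProduct

universe u v

namespace Pool.Agent.H842.PA

open Pool.Agent.H914 Pool.Agent.H447 Pool.Agent.W534 Pool.Agent.Y163 VarClass Obj WeilCohomology
  Module
open Pool.Agent.Y121 Pool.Agent.Y121.AHS Pool.Agent.R940 Pool.Agent.R914.UN
open Pool.Agent.Y133.Half (ClassPred)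
open Pool.Agent.H842.PP (Cov fin_gen fin_one fin_dim IsGen)

variable {k : Type u} [Field k] {𝒱 : VarClass k} {ops : CycleOps 𝒱}

variable {T : HodgeTheory ops} {X Z : 𝒱.Obj} {D : Conj T}

lemma Corr.zero {T' : HodgeTheory ops} (C : Corr T T') (Y : 𝒱.Obj) (j : ℕ) :
    C.R Y j (0 : T.W.H Y) (0 : T'.W.H Y) := by
  have h1 := C.qmul Y j 0 _ _ (C.cl Y j 0 (SmVar.IsCyc.zero _ _))
  have h2 := qmul_zero (T := T) (T.W.cl Y 0 : T.W.H Y)
  have h3 := qmul_zero (T := T') (T'.W.cl Y 0 : T'.W.H Y)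
  exact (congrArg₂ (C.R Y j) h2 h3).mp h1

variable (D) in
/-- The absolutely Hodge classes. -/
noncomputable def absP : ClassPred T.W where
  P Y j c := IsAbs D Y j c
  gr h := h.1.1
  zero {Y j} := ⟨AH.IsHodge.zero (T := toH T), fun i =>
    ⟨(0 : (D.T' i).W.H Y), AH.IsHodge.zero (T := toH (D.T' i)), (D.cmp i).zero Y j⟩⟩
  add {Y j a b} ha hb := by
    refine ⟨AH.IsHodge.add (T := toH T) ha.1 hb.1, fun i => ?_⟩
    obtain ⟨a', ha1, ha2⟩ := ha.2 i
    obtain ⟨b', hb1, hb2⟩ := hb.2 i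
    exact ⟨add a' b', AH.IsHodge.add (T := toH (D.T' i)) ha1 hb1,
      (D.cmp i).add Y j _ _ _ _ ha2 hb2⟩
  smul {Y j} r {a} ha := by
    obtain ⟨q, rfl⟩ := T.rat r
    refine ⟨AH.IsHodge.smul (T := toH T) _ ha.1, fun i => ?_⟩
    obtain ⟨a', ha1, ha2⟩ := ha.2 i
    exact ⟨qmul q a', AH.IsHodge.smul (T := toH (D.T' i)) (q : (D.T' i).W.K) ha1,
      (D.cmp i).qmul Y j q _ _ ha2⟩
  cl {Y j z} hz := ⟨AH.IsHodge.cl (T := toH T) hz, fun i =>
    ⟨(D.T' i).W.cl Y z, AH.IsHodge.cl (T := toH (D.T' i)) hz, (D.cmp i).cl Y j z hz⟩⟩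
  mul {Y i j a b} ha hb := by
    refine ⟨AH.IsHodge.mul (T := toH T) ha.1 hb.1, fun l => ?_⟩
    obtain ⟨a', ha1, ha2⟩ := ha.2 l
    obtain ⟨b', hb1, hb2⟩ := hb.2 l
    exact ⟨mul a' b', AH.IsHodge.mul (T := toH (D.T' l)) ha1 hb1,
      (D.cmp l).mul Y i j _ _ _ _ ha2 hb2⟩
  map {Y Z} f {j a} ha := by
    refine ⟨AH.IsHodge.map (T := toH T) f ha.1, fun i => ?_⟩
    obtain ⟨a', ha1, ha2⟩ := ha.2 i
    exact ⟨pull (D.T' i) f a', AH.IsHodge.map (T := toH (D.T' i)) f ha1,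
      (D.cmp i).pull Y Z f j _ _ ha2⟩
  push {Y Z} f {j l} h {a} ha := by
    refine ⟨AH.IsHodge.push (T := toH T) f h ha.1, fun i => ?_⟩
    obtain ⟨a', ha1, ha2⟩ := ha.2 i
    exact ⟨push (D.T' i) f a', AH.IsHodge.push (T := toH (D.T' i)) f h ha1,
      (D.cmp i).push Y Z f j l _ _ h ha2⟩

lemma absP_hodge (Y : 𝒱.Obj) (j : ℕ) (c : T.W.H Y) (h : (absP D).P Y j c) : IsHodge T Y j c := h.1

lemma cov_abs {n : ℕ} : NeutralAbs D X n ↔ Cov (T := toH T) X (absP D) n :=
  ⟨fun h j c hc hn => h j c hc (neutral_iff.2 (PP.neutral_iff.2 hn)),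
    fun h j c hc hn => h j c hc (PP.neutral_iff.1 (neutral_iff.1 hn))⟩

lemma abs_of_gen {M : ℕ} {S : Set (T.W.H (pw X M))}
    (h : ∀ c ∈ S, ∀ j, IsHodge T (pw X M) j c → IsAbs D (pw X M) j c)
    (h4 : NeutralAbs D X 3)
    {Y : 𝒱.Obj} {j : ℕ} {c : T.W.H Y} (hc : IsGen T X M S Y j c) :
    (absP D).P Y j c := by
  induction hc with
  | four hc hn => exact h4 _ _ hc (neutral_iff.2 hn)
  | mem hcS hc => exact h _ hcS _ hc
  | cl hz => exact (absP D).cl hz
  | add _ _ ha hb => exact (absP D).add ha hb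
  | smul r _ ha => exact (absP D).smul r ha
  | mul _ _ ha hb => exact (absP D).mul ha hb
  | map f _ ha => exact (absP D).map f ha
  | push f h _ ha => exact (absP D).push f h ha

lemma spanDim_univ : spanDim T X Set.univ = finrank T.W.K (T.W.H X) := by
  have h1 : spanDim T X Set.univ = finrank T.W.K (Submodule.span T.W.K
    (Set.univ : Set (T.W.H X))) := rfl
  rw [h1, Submodule.span_univ, finrank_top]

/-- **Few classes suffice.** -/
theorem abs_few (hpos : NonnegTypes T) (hsym : HodgeSymmetric T X) (hpol : IsPolarisable T X)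
    (M : ℕ) (hM : M = polyBound (finrank T.W.K (T.W.H X)) - 1) :
    FewSuffice T X M (numBound (finrank T.W.K (T.W.H X))) := by
  obtain ⟨S, h1, h2, h3, h4⟩ := fin_gen hpos hsym hpol M hM
  refine ⟨S, h1, h2, fun c hc => ?_, fun D h h5 n j c hc hn =>
    abs_of_gen h h5 (h4 n j c hc (neutral_iff.1 hn))⟩
  obtain ⟨j, h5, h6⟩ := h3 c hc
  exact ⟨neutral_iff.2 h6, j, h5⟩

/-- **One power suffices.** -/
theorem abs_one (hpos : NonnegTypes T) (hsym : HodgeSymmetric T X) (hpol : IsPolarisable T X)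
    (h : NeutralAbs D X (polyBound (finrank T.W.K (T.W.H X)) - 1)) (n : ℕ) :
    NeutralAbs D X n :=
  cov_abs.2 (fin_one hpos hsym hpol (absP D) absP_hodge (cov_abs.1 h) n)

lemma neutral_set {n : ℕ} (P : ℕ → Coh T (pw X n) → Prop) :
    neutralDim T X n P = finrank T.W.K (Submodule.span T.W.K
      {c : T.W.H (pw X n) | ∃ j, P j c ∧ PP.IsNeutral T X n c}) := by
  have h1 : {c : Coh T (pw X n) | ∃ j, P j c ∧ IsNeutral T X n c} =
      {c : T.W.H (pw X n) | ∃ j, P j c ∧ PP.IsNeutral T X n c} :=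
    Set.ext fun c => exists_congr fun j => and_congr Iff.rfl neutral_iff
  have h2 : neutralDim T X n P = finrank T.W.K (Submodule.span T.W.K
    (show Set (T.W.H (pw X n)) from {c : Coh T (pw X n) | ∃ j, P j c ∧ IsNeutral T X n c})) := rfl
  rw [h2]
  exact congrArg (fun s : Set (T.W.H (pw X n)) => finrank T.W.K (Submodule.span T.W.K s)) h1

/-- **The dimensions.** -/
theorem abs_dim (hpos : NonnegTypes T) (hsym : HodgeSymmetric T X) (hpol : IsPolarisable T X)
    (h : NeutralAbs D X 3) (n : ℕ) (hn : Even (n + 1)) :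
    neutralDim T X n (IsHodge T (pw X n)) ≤
      idxBound (finrank T.W.K (T.W.H X)) * neutralDim T X n (IsAbs D (pw X n)) := by
  have h3 := fin_dim hpos hsym hpol (absP D) absP_hodge (cov_abs.1 h) n hn
  have e1 := neutral_set (T := T) (X := X) (n := n) (IsHodge T (pw X n))
  have e2 := neutral_set (T := T) (X := X) (n := n) (IsAbs D (pw X n))
  refine e1.le.trans ((Submodule.finrank_mono (PP.hodgeSpace_le n)).trans (h3.trans ?_))
  refine Nat.mul_le_mul_left _ (le_trans ?_ e2.ge)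
  exact Submodule.finrank_mono (PP.sp_inf_le hpos (absP D) absP_hodge n)

theorem neutral_all (h : NoTypeFour T X) (n : ℕ) (c : T.W.H (pw X n)) : IsNeutral T X n c :=
  neutral_iff.2 (PP.neutral_all (fun f hf x => (h f hf x).trans (qmul_zero x)) n c)

/-- **Absolutely Hodge classes.** -/
theorem abs_main (hpos : NonnegTypes T) (hsym : HodgeSymmetric T X) (hpol : IsPolarisable T X)
    (b N : ℕ) (hb : b = spanDim T X Set.univ) (hN : N = polyBound b) :
    FewSuffice T X (N - 1) (numBound b) ∧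
    ∀ D : Conj T,
      (NeutralAbs D X (N - 1) → ∀ n : ℕ, NeutralAbs D X n) ∧
      (NeutralAbs D X 3 → ∀ n : ℕ, Even (n + 1) →
        neutralDim T X n (IsHodge T (pw X n)) ≤ idxBound b * neutralDim T X n (IsAbs D (pw X n))) ∧
      (NoTypeFour T X → AllAbs D (pw X (N - 1)) → ∀ n : ℕ, AllAbs D (pw X n)) := by
  rw [spanDim_univ] at hb
  subst hb hN
  exact ⟨abs_few hpos hsym hpol _ rfl, fun D => ⟨fun h n => abs_one hpos hsym hpol h n,
    fun h n hn => abs_dim hpos hsym hpol h n hn,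
    fun h1 h2 n j c hc => abs_one hpos hsym hpol (fun j c hc _ => h2 j c hc) n j c hc
      (neutral_all h1 n c)⟩⟩

end Pool.Agent.H842.PA
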